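import Mathlib

set_option autoImplicit false

/-!
# MP_85ff8f_ag : the Capelli computation for one odd letter

`D i = τ ∂_i`, `D' i = x_i ∂_τ`, `E i j = x_i ∂_j`, `T = τ ∂_τ`.  `Ds D l ζ = D_{l_1} D_{l_2} ⋯ ζ`.

`capelli`: for a strictly increasing list `l` and a highest weight vector `ζ` without `τ`,
`D'_{l_r} ⋯ D'_{l_1} (D_{l_1} ⋯ D_{l_r} ζ) = (∏ (γ_{l_k} + r - k)) ζ`.

`Ds_E`: `E i j (Ds l ζ) = 0` for `i < j`.
-/

namespace Pool.Agent.H19.OPF

variable {k ι M : Type*} [Field k] [LinearOrder ι] [AddCommGroup M] [Module k M]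

/-- the relations of `gl(ι | 1)` which are used -/
structure OddRel (D D' : ι → Module.End k M) (E : ι → ι → Module.End k M) (T : Module.End k M) :
    Prop where
  ddp : ∀ i j x, D' j (D i x) = E j i x + (if i = j then T x else 0) - D i (D' j x)
  ed : ∀ i j l x, E i j (D l x) = D l (E i j x) - (if i = l then D j x else 0)
  td : ∀ l x, T (D l x) = D l (T x) + D l x
  dd : ∀ i j x, D i (D j x) = - D j (D i x)
  dd0 : ∀ i x, D i (D i x) = 0

/-- `D_{l_1} D_{l_2} ⋯ ζ` -/
def Ds (D : ι → Module.End k M) (l : List ι) (ζ : M) : M := l.foldr (fun i x => D i x) ζ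

omit [LinearOrder ι] in
@[simp] lemma Ds_nil (D : ι → Module.End k M) (ζ : M) : Ds D [] ζ = ζ := rfl

omit [LinearOrder ι] in
@[simp] lemma Ds_cons (D : ι → Module.End k M) (i : ι) (l : List ι) (ζ : M) :
    Ds D (i :: l) ζ = D i (Ds D l ζ) := rfl

variable {D D' : ι → Module.End k M} {E : ι → ι → Module.End k M} {T : Module.End k M}

/-- `D'_{l_r} ⋯ D'_{l_1} x` -/
def Dps (D' : ι → Module.End k M) (l : List ι) (x : M) : M := l.foldl (fun x i => D' i x) x

omit [LinearOrder ι] in
@[simp] lemma Dps_nil (x : M) : Dps D' [] x = x := rfl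

omit [LinearOrder ι] in
@[simp] lemma Dps_cons (i : ι) (l : List ι) (x : M) : Dps D' (i :: l) x = Dps D' l (D' i x) := rfl

omit [LinearOrder ι] in
lemma Dps_smul (l : List ι) (t : k) (x : M) : Dps D' l (t • x) = t • Dps D' l x := by
  induction l generalizing x with
  | nil => rfl
  | cons i l ih => rw [Dps_cons, map_smul, ih, Dps_cons]

lemma Ds_kill (h : OddRel D D' E T) {j : ι} {l : List ι} (hj : j ∈ l) (ζ : M) :
    D j (Ds D l ζ) = 0 := by
  induction l with
  | nil => simp at hj
  | cons i l ih =>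
    rw [Ds_cons]
    by_cases hij : j = i
    · subst hij; exact h.dd0 _ _
    · rw [h.dd, ih (by simpa [hij] using hj), map_zero, neg_zero]

lemma Ds_kill' (h : OddRel D D' E T) {j : ι} {ζ : M} (hj : D j ζ = 0) (l : List ι) :
    D j (Ds D l ζ) = 0 := by
  induction l with
  | nil => exact hj
  | cons i l ih => rw [Ds_cons, h.dd, ih, map_zero, neg_zero]

/-- `E i j` passes to `ζ` if `i ∉ l` -/
lemma Ds_E_notMem (h : OddRel D D' E T) {i j : ι} {l : List ι} (hi : i ∉ l) (ζ : M) :
    E i j (Ds D l ζ) = Ds D l (E i j ζ) := by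
  induction l with
  | nil => rfl
  | cons m l ih =>
    rw [List.mem_cons, not_or] at hi
    rw [Ds_cons, h.ed, if_neg hi.1, sub_zero, ih hi.2, Ds_cons]

lemma Ds_zero (l : List ι) : Ds D l (0 : M) = 0 := by
  induction l with
  | nil => rfl
  | cons i l ih => rw [Ds_cons, ih, map_zero]

lemma Ds_smul (l : List ι) (t : k) (x : M) : Ds D l (t • x) = t • Ds D l x := by
  induction l with
  | nil => rfl
  | cons i l ih => rw [Ds_cons, ih, map_smul, Ds_cons]

theorem Ds_E (h : OddRel D D' E T) {i j : ι} (hij : i < j) {l : List ι} (hl : l.Pairwise (· < ·))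
    {ζ : M} (hE : E i j ζ = 0) (hj : j ∈ l ∨ D j ζ = 0) : E i j (Ds D l ζ) = 0 := by
  by_cases hi : i ∈ l
  · induction l with
    | nil => simp at hi
    | cons m l ih =>
      rw [List.pairwise_cons] at hl
      rw [Ds_cons, h.ed]
      by_cases him : i = m
      · subst him
        have h1 : i ∉ l := fun hh => lt_irrefl _ (hl.1 i hh)
        have h2 : D j (Ds D l ζ) = 0 := by
          rcases hj with hj | hj
          · exact Ds_kill h (by simpa [ne_of_gt hij] using hj) ζ
          · exact Ds_kill' h hj l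
        rw [if_pos rfl, h2, sub_zero, Ds_E_notMem h h1, hE, Ds_zero, map_zero]
      · have h1 : i ∈ l := by simpa [him] using hi
        have h2 : j ∈ l ∨ D j ζ = 0 := by
          rcases hj with hj | hj
          · left
            rcases List.mem_cons.mp hj with hj | hj
            · exact absurd (hl.1 i h1) (by rw [← hj]; exact not_lt.mpr hij.le)
            · exact hj
          · exact Or.inr hj
        rw [if_neg him, sub_zero, ih hl.2 h2 h1, map_zero]
  · rw [Ds_E_notMem h hi, hE, Ds_zero]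

lemma Ds_T (h : OddRel D D' E T) (l : List ι) {ζ : M} (hT : T ζ = 0) :
    T (Ds D l ζ) = (l.length : k) • Ds D l ζ := by
  induction l with
  | nil => simp [hT]
  | cons m l ih =>
    rw [Ds_cons, h.td, ih, map_smul, List.length_cons, Nat.cast_succ, add_smul, one_smul]

/-- weights of `Ds l ζ` -/
lemma Ds_wt (h : OddRel D D' E T) {i : ι} {l : List ι} (hl : l.Nodup) {ζ : M} {γ : k}
    (hζ : E i i ζ = γ • ζ) :
    E i i (Ds D l ζ) = (γ - (if i ∈ l then 1 else 0)) • Ds D l ζ := by
  induction l with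
  | nil => simp [hζ]
  | cons m l ih =>
    rw [List.nodup_cons] at hl
    rw [Ds_cons, h.ed, ih hl.2, map_smul]
    by_cases him : i = m
    · subst him
      rw [if_neg hl.1, if_pos rfl, if_pos (by simp), sub_zero, sub_smul, one_smul]
    · rw [if_neg him, sub_zero]
      congr 2
      simp [him]

lemma Dp_Ds (h : OddRel D D' E T) {i : ι} {l : List ι} (hl : ∀ j ∈ l, i < j) {ζ : M}
    (hl' : l.Nodup) (hD : D' i ζ = 0) (hE : ∀ j ∈ l, E i j ζ = 0) : D' i (Ds D l ζ) = 0 := by
  induction l with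
  | nil => exact hD
  | cons m l ih =>
    rw [List.nodup_cons] at hl'
    have him : i ≠ m := ne_of_lt (hl m List.mem_cons_self)
    have h1 : i ∉ l := fun hh => lt_irrefl _ (hl i (List.mem_cons_of_mem _ hh))
    rw [Ds_cons, h.ddp, ih (fun j hj => hl j (List.mem_cons_of_mem _ hj)) hl'.2
      (fun j hj => hE j (List.mem_cons_of_mem _ hj)), map_zero, sub_zero, if_neg (Ne.symm him),
      add_zero, Ds_E_notMem h h1, hE m List.mem_cons_self, Ds_zero]

/-- the scalar `∏ (γ_{l_k} + r - k)` -/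
def cap (k : Type*) [Field k] {ι : Type*} (γ : ι → k) : List ι → k
  | [] => 1
  | i :: l => ((l.length : k) + γ i) * cap k γ l

theorem capelli (h : OddRel D D' E T) {γ : ι → k} {l : List ι} (hl : l.Pairwise (· < ·)) {ζ : M}
    (hT : T ζ = 0) (hD : ∀ i ∈ l, D' i ζ = 0) (hE : ∀ i ∈ l, ∀ j ∈ l, i < j → E i j ζ = 0)
    (hw : ∀ i ∈ l, E i i ζ = γ i • ζ) : Dps D' l (Ds D l ζ) = cap k γ l • ζ := by
  induction l with
  | nil => simp [cap]
  | cons i l ih =>
    rw [List.pairwise_cons] at hl
    have hnd : l.Nodup := hl.2.imp (fun h => ne_of_lt h)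
    have h1 : i ∉ l := fun hh => lt_irrefl _ (hl.1 i hh)
    have h2 : D' i (Ds D (i :: l) ζ) = ((l.length : k) + γ i) • Ds D l ζ := by
      rw [Ds_cons, h.ddp, if_pos rfl, Ds_T h l hT, Ds_wt h hnd (hw i List.mem_cons_self),
        if_neg h1, sub_zero, Dp_Ds h hl.1 hnd (hD i List.mem_cons_self)
        (fun j hj => hE i List.mem_cons_self j (List.mem_cons_of_mem _ hj) (hl.1 j hj)), map_zero,
        sub_zero, add_smul, add_comm]
    rw [Dps_cons, h2, Dps_smul, ih hl.2 (fun j hj => hD j (List.mem_cons_of_mem _ hj))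
      (fun j hj j' hj' => hE j (List.mem_cons_of_mem _ hj) j' (List.mem_cons_of_mem _ hj'))
      (fun j hj => hw j (List.mem_cons_of_mem _ hj)), smul_smul, cap]

lemma cap_ne_zero [CharZero k] {γ : ι → ℕ} {l : List ι} (h : ∀ i ∈ l, γ i ≠ 0) :
    cap k (fun i => (γ i : k)) l ≠ 0 := by
  induction l with
  | nil => simp [cap]
  | cons i l ih =>
    rw [cap]
    refine mul_ne_zero ?_ (ih fun j hj => h j (List.mem_cons_of_mem _ hj))
    have := h i List.mem_cons_self
    have h2 : l.length + γ i ≠ 0 := by omega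
    exact_mod_cast h2

end Pool.Agent.H19.OPF
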