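import Mathlib

set_option autoImplicit false

/-!
# MP_85ff8f_ag : highest weight vectors for sl2, elementary lemmas

`sl2_vec`: `[e, f] = h`, `[h, f] = -2 f` on a module, `v ≠ 0`, `e v = 0`, `h v = lam v`, `f` nilpotent on
`v`: `lam` is a natural number.

`sl2_hom`: a linear map `φ ≠ 0` with `e φ = φ e`, `h φ - φ h = lam φ`: `lam` is a natural number.
-/

namespace Pool.Agent.H19.OPF

variable {k M N : Type*} [Field k] [CharZero k] [AddCommGroup M] [Module k M] [AddCommGroup N]
  [Module k N]

lemma sl2_comm {f h : Module.End k M} (hhf : h * f - f * h = -(2 : k) • f)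
    {v : M} {lam : k} (hv : h v = lam • v) (n : ℕ) :
    h ((f ^ n) v) = (lam - 2 * n) • (f ^ n) v := by
  induction n with
  | zero => simp [hv]
  | succ n ih =>
    have h1 : h (f ((f ^ n) v)) = f (h ((f ^ n) v)) + (-(2 : k)) • f ((f ^ n) v) := by
      have h2 := congrArg (fun g : Module.End k M => g ((f ^ n) v)) hhf
      simp only [LinearMap.sub_apply, Module.End.mul_apply, LinearMap.smul_apply] at h2
      rw [← h2]; abel
    rw [pow_succ', Module.End.mul_apply, h1, ih, map_smul, ← add_smul]
    congr 1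
    push_cast
    ring

lemma sl2_ef {e f h : Module.End k M} (hef : e * f - f * e = h) (hhf : h * f - f * h = -(2 : k) • f)
    {v : M} {lam : k} (hv : h v = lam • v) (he : e v = 0) (n : ℕ) :
    e ((f ^ (n + 1)) v) = ((n + 1 : k) * (lam - n)) • (f ^ n) v := by
  have hcom : ∀ x : M, e (f x) = f (e x) + h x := by
    intro x
    have h2 := congrArg (fun g : Module.End k M => g x) hef
    simp only [LinearMap.sub_apply, Module.End.mul_apply] at h2
    rw [← h2]; abel
  induction n with
  | zero =>
    rw [zero_add, pow_one, hcom, he, map_zero, zero_add, hv, pow_zero, Module.End.one_apply]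
    congr 1
    push_cast
    ring
  | succ n ih =>
    rw [pow_succ', Module.End.mul_apply, hcom, ih, map_smul, ← Module.End.mul_apply, ← pow_succ',
      sl2_comm hhf hv, ← add_smul]
    congr 1
    push_cast
    ring

theorem sl2_vec {e f h : Module.End k M} (hef : e * f - f * e = h)
    (hhf : h * f - f * h = -(2 : k) • f) {v : M} {lam : k} (hv : h v = lam • v) (he : e v = 0)
    (hv0 : v ≠ 0) {n : ℕ} (hn : (f ^ n) v = 0) : ∃ m : ℕ, lam = m := by
  classical
  have hex : ∃ n, (f ^ n) v = 0 := ⟨n, hn⟩
  obtain ⟨m, hm⟩ : ∃ m, Nat.find hex = m + 1 := by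
    refine Nat.exists_eq_succ_of_ne_zero fun h0 => ?_
    have := Nat.find_spec hex
    rw [h0] at this
    exact hv0 (by simpa using this)
  have h1 : (f ^ (m + 1)) v = 0 := hm ▸ Nat.find_spec hex
  have h2 : (f ^ m) v ≠ 0 := Nat.find_min hex (by omega)
  have h3 := sl2_ef hef hhf hv he m
  rw [h1, map_zero] at h3
  rcases smul_eq_zero.mp h3.symm with h4 | h4
  · rcases mul_eq_zero.mp h4 with h5 | h5
    · exact absurd h5 (by exact_mod_cast Nat.succ_ne_zero m)
    · exact ⟨m, sub_eq_zero.mp h5⟩
  · exact absurd h4 h2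

/-- `φ ↦ a ∘ φ` -/
def lc (M : Type*) [AddCommGroup M] [Module k M] (a : Module.End k N) :
    Module.End k (M →ₗ[k] N) where
  toFun φ := a ∘ₗ φ
  map_add' _ _ := LinearMap.comp_add _ _ _
  map_smul' _ _ := LinearMap.comp_smul _ _ _

/-- `φ ↦ φ ∘ b` -/
def rc (N : Type*) [AddCommGroup N] [Module k N] (b : Module.End k M) :
    Module.End k (M →ₗ[k] N) where
  toFun φ := φ ∘ₗ b
  map_add' _ _ := LinearMap.add_comp _ _ _
  map_smul' _ _ := LinearMap.smul_comp _ _ _

omit [CharZero k] in
@[simp] lemma lc_apply (a : Module.End k N) (φ : M →ₗ[k] N) (x : M) : lc M a φ x = a (φ x) := rfl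

omit [CharZero k] in
@[simp] lemma rc_apply (b : Module.End k M) (φ : M →ₗ[k] N) (x : M) : rc N b φ x = φ (b x) := rfl

omit [CharZero k] in
lemma lc_pow (a : Module.End k N) (n : ℕ) : (lc M a) ^ n = lc M (a ^ n) := by
  induction n with
  | zero => rfl
  | succ n ih => rw [pow_succ, ih, pow_succ]; rfl

omit [CharZero k] in
lemma rc_pow (b : Module.End k M) (n : ℕ) : (rc N b) ^ n = rc N (b ^ n) := by
  induction n with
  | zero => rfl
  | succ n ih => rw [pow_succ, ih, pow_succ']; rfl

/-- `φ ≠ 0` intertwines `e` and has weight `lam`: then `lam` is a natural number. -/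
theorem sl2_hom {e f h : Module.End k M} {e' f' h' : Module.End k N}
    (hef : e * f - f * e = h) (hhf : h * f - f * h = -(2 : k) • f)
    (hef' : e' * f' - f' * e' = h') (hhf' : h' * f' - f' * h' = -(2 : k) • f')
    (hf : IsNilpotent f) (hf' : IsNilpotent f')
    {φ : M →ₗ[k] N} (hφ : φ ≠ 0) {lam : k} (he : ∀ x, e' (φ x) = φ (e x))
    (hh : ∀ x, h' (φ x) = φ (h x) + lam • φ x) : ∃ m : ℕ, lam = m := by
  have hcomm : Commute (lc M f') (rc N f) := rfl
  have hnil : IsNilpotent (lc M f' - rc N f) := by
    refine hcomm.isNilpotent_sub ?_ ?_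
    · obtain ⟨n, hn⟩ := hf'
      exact ⟨n, by rw [lc_pow, hn]; rfl⟩
    · obtain ⟨n, hn⟩ := hf
      refine ⟨n, ?_⟩
      rw [rc_pow, hn]
      refine LinearMap.ext fun φ => LinearMap.ext fun x => ?_
      simp
  obtain ⟨n, hn⟩ := hnil
  have E1 : ∀ x, e (f x) = f (e x) + h x := fun x => by
    have h2 := congrArg (fun g : Module.End k M => g x) hef
    simp only [LinearMap.sub_apply, Module.End.mul_apply] at h2
    rw [← h2]; abel
  have E2 : ∀ x, e' (f' x) = f' (e' x) + h' x := fun x => by
    have h2 := congrArg (fun g : Module.End k N => g x) hef'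
    simp only [LinearMap.sub_apply, Module.End.mul_apply] at h2
    rw [← h2]; abel
  have E3 : ∀ x, h (f x) = f (h x) - (2 : k) • f x := fun x => by
    have h2 := congrArg (fun g : Module.End k M => g x) hhf
    simp only [LinearMap.sub_apply, Module.End.mul_apply, LinearMap.smul_apply, neg_smul,
      LinearMap.neg_apply] at h2
    rw [sub_eq_add_neg, ← h2]; abel
  have E4 : ∀ x, h' (f' x) = f' (h' x) - (2 : k) • f' x := fun x => by
    have h2 := congrArg (fun g : Module.End k N => g x) hhf'
    simp only [LinearMap.sub_apply, Module.End.mul_apply, LinearMap.smul_apply, neg_smul,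
      LinearMap.neg_apply] at h2
    rw [sub_eq_add_neg, ← h2]; abel
  refine sl2_vec (e := lc M e' - rc N e) (f := lc M f' - rc N f) (h := lc M h' - rc N h)
    (v := φ) (lam := lam) (n := n) ?_ ?_ ?_ ?_ hφ ?_
  · refine LinearMap.ext fun ψ => LinearMap.ext fun x => ?_
    simp only [LinearMap.sub_apply, Module.End.mul_apply, lc_apply, rc_apply, map_sub, E1, E2,
      map_add]
    abel
  · refine LinearMap.ext fun ψ => LinearMap.ext fun x => ?_
    simp only [LinearMap.sub_apply, Module.End.mul_apply, lc_apply, rc_apply, map_sub, E3, E4,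
      LinearMap.smul_apply, map_smul, neg_smul, smul_sub, LinearMap.neg_apply]
    abel
  · refine LinearMap.ext fun x => ?_
    simp only [LinearMap.sub_apply, lc_apply, rc_apply, hh, LinearMap.smul_apply]
    abel
  · refine LinearMap.ext fun x => ?_
    simp only [LinearMap.sub_apply, lc_apply, rc_apply, he, LinearMap.zero_apply, sub_self]
  · rw [hn]; rfl

end Pool.Agent.H19.OPF
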